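import Mathlib
import Pool.Agent.Helper61.KS.Eig

/-!
# MP_f940ca_an, Q1: the case of periods on a real line

`Ω` is a bounded planar domain, with no regularity assumed of its boundary, and `h` is a bounded
holomorphic function on `Ω`.  If all periods of `h dz` lie on one real line `ℝ κ` and not all of
them vanish, then `S_h f = conj h * T f` has an eigenvalue.  For a doubly connected domain the
hypothesis on the periods holds for every `h`.

Write `h = κ k`.  The function `ρ = Im ∫ k dz` is single valued, and for real `s` the gauge factor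
`exp (i s ρ)` turns the eigenvalue equation with eigenvalue `-conj κ / s` into the real equation
`Δ y + 2 s a · ∇ y + s² |a|² y = 0`, with `a = conj k` divergence free, for a real function
`y ∈ H_0^1 (Ω)`.  If this had only the zero solution for all `s > 0`, a continuation argument in two
parameters would show that the operator has a positive inverse for all `s > 0`; the solution
`y ≥ 0` with right-hand side `1` then bounds `s` times the flux of `a` through every compactly
supported divergence-free field, which is absurd for large `s` as a period is not zero.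
-/

set_option autoImplicit false

open MeasureTheory Set
open scoped ENNReal ComplexConjugate

namespace Pool.Agent.Results.MP_f940ca_an.RealPeriods

/-- the operator `∂/∂z̄` on differentiable functions of the real plane -/
noncomputable def dzbar (φ : ℂ → ℂ) (z : ℂ) : ℂ :=
  (fderiv ℝ φ z 1 + Complex.I * fderiv ℝ φ z Complex.I) / 2

/-- `u = T f`, the canonical (Kohn) solution of `∂u/∂z̄ = f` in `L²(Ω)`: the function `u` is in
`L²(Ω)`, it solves the equation in the sense of distributions, and it is orthogonal to all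
square-integrable holomorphic functions. -/
structure IsCanonicalSolution (Ω : Set ℂ) (f u : ℂ → ℂ) : Prop where
  memLp : MemLp u 2 (volume.restrict Ω)
  weak : ∀ φ : ℂ → ℂ, ContDiff ℝ (⊤ : ℕ∞) φ → HasCompactSupport φ → tsupport φ ⊆ Ω →
    ∫ z in Ω, u z * dzbar φ z = -∫ z in Ω, f z * φ z
  orth : ∀ g : ℂ → ℂ, DifferentiableOn ℂ g Ω → MemLp g 2 (volume.restrict Ω) →
    ∫ z in Ω, u z * conj (g z) = 0

/-- `c` is an eigenvalue of the operator `S_h f = conj h * T f` on `L²(Ω)`. -/
def IsEigenvalue (Ω : Set ℂ) (h : ℂ → ℂ) (c : ℂ) : Prop :=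
  ∃ f u : ℂ → ℂ, MemLp f 2 (volume.restrict Ω) ∧ (¬ ∀ᵐ z ∂(volume.restrict Ω), f z = 0) ∧
    IsCanonicalSolution Ω f u ∧ ∀ᵐ z ∂(volume.restrict Ω), conj (h z) * u z = c * f z

/-- closed `C¹` curves in `Ω`, parametrised by `[0,1]` -/
def IsLoop (Ω : Set ℂ) (γ : ℝ → ℂ) : Prop :=
  ContDiff ℝ 1 γ ∧ γ 0 = γ 1 ∧ ∀ t ∈ Icc (0 : ℝ) 1, γ t ∈ Ω

/-- the period of `h dz` along `γ` -/
noncomputable def period (h : ℂ → ℂ) (γ : ℝ → ℂ) : ℂ := ∫ t in (0 : ℝ)..1, h (γ t) * deriv γ t

open Pool.Agent.Helper61.KS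

theorem result (Ω : Set ℂ) (hΩ : IsOpen Ω) (hc : IsConnected Ω) (hb : Bornology.IsBounded Ω)
    (h : ℂ → ℂ) (hh : DifferentiableOn ℂ h Ω) (hbd : ∃ C : ℝ, ∀ z ∈ Ω, ‖h z‖ ≤ C)
    (κ : ℂ) (hreal : ∀ γ, IsLoop Ω γ → ∃ r : ℝ, period h γ = r * κ)
    (hne : ∃ γ, IsLoop Ω γ ∧ period h γ ≠ 0) :
    ∃ s : ℝ, 0 < s ∧ IsEigenvalue Ω h (-conj κ / s) := by
  -- normalisation
  obtain ⟨γ, hγ, hγne⟩ := hne
  have hκ : κ ≠ 0 := by
    rintro rfl
    obtain ⟨r, hr⟩ := hreal γ hγ
    exact hγne (by rw [hr, mul_zero])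
  obtain ⟨C, hC⟩ := hbd
  obtain ⟨k, hkdef⟩ : ∃ k : ℂ → ℂ, k = fun z => κ⁻¹ * h z := ⟨_, rfl⟩
  have hk : DifferentiableOn ℂ k Ω := by rw [hkdef]; exact hh.const_mul _
  have hkC : ∀ z ∈ Ω, ‖k z‖ ≤ ‖κ⁻¹‖ * C := by
    intro z hz
    rw [hkdef]
    simp only [norm_mul]
    exact mul_le_mul_of_nonneg_left (hC z hz) (norm_nonneg _)
  have hper : ∀ γ : ℝ → ℂ, (∫ t in (0 : ℝ)..1, k (γ t) * deriv γ t) = κ⁻¹ * period h γ := by
    intro γ
    unfold period
    rw [← intervalIntegral.integral_const_mul]
    apply intervalIntegral.integral_congr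
    intro t _
    simp only [hkdef]
    ring
  have hperim : ∀ γ : ℝ → ℂ, ContDiff ℝ 1 γ → γ 0 = γ 1 → (∀ t ∈ Icc (0 : ℝ) 1, γ t ∈ Ω) →
      (∫ t in (0 : ℝ)..1, k (γ t) * deriv γ t).im = 0 := by
    intro γ h1 h2 h3
    obtain ⟨r, hr⟩ := hreal γ ⟨h1, h2, h3⟩
    rw [hper, hr, mul_comm (r : ℂ) κ, inv_mul_cancel_left₀ hκ, Complex.ofReal_im]
  have hperre : (∫ t in (0 : ℝ)..1, k (γ t) * deriv γ t).re ≠ 0 := by
    intro h0
    apply hγne
    have h1 : (∫ t in (0 : ℝ)..1, k (γ t) * deriv γ t) = 0 :=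
      Complex.ext h0 (hperim γ hγ.1 hγ.2.1 hγ.2.2)
    rw [hper] at h1
    exact (mul_eq_zero.1 h1).resolve_left (inv_ne_zero hκ)
  -- geometry
  obtain ⟨R, hR⟩ := hb.exists_norm_le
  have hR' : ∀ z ∈ Ω, |z.re| ≤ R ∧ |z.im| ≤ R := fun z hz =>
    ⟨(Complex.abs_re_le_norm z).trans (hR z hz), (Complex.abs_im_le_norm z).trans (hR z hz)⟩
  have hfin : volume Ω ≠ (⊤ : ℝ≥0∞) := hb.measure_lt_top.ne
  have hd := divFree_holo hΩ hk hkC
  have hd' : DivFree Ω (fun z => (k z).im) (fun z => (k z).re) := by
    have h1 := divFree_holo hΩ (hk.const_mul (-Complex.I)) (C := ‖κ⁻¹‖ * C) (by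
      intro z hz
      rw [norm_mul, norm_neg, Complex.norm_I, one_mul]
      exact hkC z hz)
    have e1 : (fun z => (-Complex.I * k z).re) = fun z => (k z).im := by ext z; simp
    have e2 : (fun z => -(-Complex.I * k z).im) = fun z => (k z).re := by ext z; simp
    rwa [e1, e2] at h1
  obtain ⟨ρ, hρ⟩ := exists_rho hΩ hc hk hperim
  obtain ⟨b1, b2, v, M, hbf, hv, hM1, hM2, hflux⟩ :=
    exists_field hΩ hk.continuousOn hγ.1 hγ.2.1 hγ.2.2 hperre
  obtain ⟨s, hs, U, hU, hU0, hker⟩ := exists_kernel hd hfin hΩ.measurableSet hR' hbf hv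
    (Filter.Eventually.of_forall hM1) (Filter.Eventually.of_forall hM2) hflux
  refine ⟨s, hs, ?_⟩
  -- the functions
  have hkm : AEStronglyMeasurable k (volume.restrict Ω) :=
    hk.continuousOn.aestronglyMeasurable hΩ.measurableSet
  have hkb : ∀ᵐ z ∂(volume.restrict Ω), ‖k z‖ ≤ ‖κ⁻¹‖ * C := by
    filter_upwards [ae_restrict_mem hΩ.measurableSet] with z hz using hkC z hz
  have hu : MemLp (uf s ρ k U) 2 (volume.restrict Ω) := by
    have m1 := ofReal_memLp (comp_memLp hU.1 1)
    have m2 := (ofReal_memLp (comp_memLp hU.1 2)).const_mul Complex.I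
    have m0 := (bmul_memLp hkm hkb (ofReal_memLp (comp_memLp hU.1 0))).const_mul (s : ℂ)
    have m3 := ((m1.sub m2).add m0).const_mul (1 / 2 : ℂ)
    have m4 := bmul_memLp (gau_meas hΩ s hρ) (C := 1)
      (Filter.Eventually.of_forall fun z => (gau_norm s ρ z).le) m3
    refine (memLp_congr_ae ?_).1 m4
    filter_upwards with z
    simp only [uf, Pi.add_apply, Pi.sub_apply]
    ring
  have hckb : ∀ᵐ z ∂(volume.restrict Ω), ‖-s * conj (k z)‖ ≤ |s| * (‖κ⁻¹‖ * C) := by
    filter_upwards [hkb] with z hz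
    rw [norm_mul, norm_neg, Complex.norm_real, Real.norm_eq_abs, RCLike.norm_conj]
    exact mul_le_mul_of_nonneg_left hz (abs_nonneg s)
  have hckm : AEStronglyMeasurable (fun z => -(s : ℂ) * conj (k z)) (volume.restrict Ω) :=
    (Complex.continuous_conj.comp_aestronglyMeasurable hkm).const_mul _
  have hf : MemLp (fun z => (-(s : ℂ) * conj (k z)) * uf s ρ k U z) 2 (volume.restrict Ω) :=
    bmul_memLp hckm hckb hu
  -- `k` has no zeros up to a null set
  have hk0 : ∀ᵐ z ∂(volume.restrict Ω), k z ≠ 0 := by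
    have han : AnalyticOnNhd ℂ k Ω := hk.analyticOnNhd hΩ
    rcases han.eqOn_zero_or_eventually_ne_zero_of_preconnected hc.isPreconnected with h0 | h0
    · exfalso
      apply hperre
      have : (∫ t in (0 : ℝ)..1, k (γ t) * deriv γ t) = ∫ t in (0 : ℝ)..1, (0 : ℂ) := by
        apply intervalIntegral.integral_congr
        intro t ht
        rw [uIcc_of_le zero_le_one] at ht
        have := h0 (hγ.2.2 t ht)
        simp only [this, Pi.zero_apply, zero_mul]
      rw [this]; simp
    · exact ae_restrict_le_codiscreteWithin hΩ.measurableSet h0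
  refine ⟨fun z => (-(s : ℂ) * conj (k z)) * uf s ρ k U z, uf s ρ k U, hf, ?_, ⟨hu, ?_, ?_⟩, ?_⟩
  · -- the eigenfunction is not zero
    intro hzero
    apply hU0
    have hrel : ∀ᵐ z ∂(volume.restrict Ω), U z 1 = -(s * (k z).re * U z 0) ∧
        U z 2 = s * (k z).im * U z 0 := by
      filter_upwards [hzero, hk0] with z h1 h2
      have hcz : conj (k z) ≠ 0 := by
        intro h3
        apply h2
        have := congrArg conj h3
        simpa using this
      have h3 : uf s ρ k U z = 0 := by
        rcases mul_eq_zero.1 h1 with h4 | h4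
        · rcases mul_eq_zero.1 h4 with h5 | h5
          · exfalso
            rw [neg_eq_zero, Complex.ofReal_eq_zero] at h5
            exact hs.ne' h5
          · exact absurd h5 hcz
        · exact h4
      have h4 : gau s ρ z ≠ 0 := by
        intro h5
        have := gau_norm s ρ z
        rw [h5, norm_zero] at this
        exact zero_ne_one this
      have h5 : (U z 1 : ℂ) - Complex.I * (U z 2 : ℂ) + s * k z * (U z 0 : ℂ) = 0 := by
        have h6 := (mul_eq_zero.1 h3).resolve_left h4
        exact (mul_eq_zero.1 h6).resolve_left (by norm_num)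
      have h6 := congrArg Complex.re h5
      have h7 := congrArg Complex.im h5
      simp at h6 h7
      constructor <;> linarith
    -- test with `y / (1 + y²)`
    have hgc : Continuous fun t : ℝ => t / (1 + t ^ 2) := by
      apply Continuous.div
      · fun_prop
      · fun_prop
      · intro t; positivity
    have hgb : ∀ t : ℝ, |t / (1 + t ^ 2)| ≤ 1 := by
      intro t
      rw [abs_div, abs_of_pos (show (0 : ℝ) < 1 + t ^ 2 by positivity),
        div_le_one (by positivity)]
      rw [← sq_abs t]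
      nlinarith [sq_nonneg (|t| - 1), abs_nonneg t]
    have hW := hU.chp hfin hgc hgb
    have h0 := hd.inH hfin hW
    simp only [mk3_1, mk3_2] at h0
    have W1 := comp_memLp hW.1 1
    have W2 := comp_memLp hW.1 2
    simp only [mk3_1, mk3_2] at W1 W2
    have : IsFiniteMeasure (volume.restrict Ω) := ⟨by
      rw [Measure.restrict_apply_univ]; exact lt_top_iff_ne_top.2 hfin⟩
    have hint : Integrable (fun z => (k z).re * (U z 0 / (1 + U z 0 ^ 2) * U z 1)
        + -(k z).im * (U z 0 / (1 + U z 0 ^ 2) * U z 2)) (volume.restrict Ω) :=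
      ((memLp_bmul hd.m1 hd.b1 W1).add (memLp_bmul hd.m2 hd.b2 W2)).integrable (by norm_num)
    have heq : ∀ᵐ z ∂(volume.restrict Ω), -((k z).re * (U z 0 / (1 + U z 0 ^ 2) * U z 1)
        + -(k z).im * (U z 0 / (1 + U z 0 ^ 2) * U z 2))
        = s * (((k z).re ^ 2 + (k z).im ^ 2) * (U z 0 ^ 2 / (1 + U z 0 ^ 2))) := by
      filter_upwards [hrel] with z hz
      rw [hz.1, hz.2]
      ring
    have hneg : ∫ z in Ω, -((k z).re * (U z 0 / (1 + U z 0 ^ 2) * U z 1)
        + -(k z).im * (U z 0 / (1 + U z 0 ^ 2) * U z 2)) = 0 := by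
      rw [integral_neg, h0, neg_zero]
    rw [integral_eq_zero_iff_of_nonneg_ae] at hneg
    · filter_upwards [hneg, heq, hk0, hrel] with z h1 h2 h3 h4
      rw [Pi.zero_apply] at h1
      rw [h1] at h2
      have h5 : ((k z).re ^ 2 + (k z).im ^ 2) * (U z 0 ^ 2 / (1 + U z 0 ^ 2)) = 0 := by
        rcases mul_eq_zero.1 h2.symm with h6 | h6
        · exact absurd h6 hs.ne'
        · exact h6
      have h6 : (k z).re ^ 2 + (k z).im ^ 2 ≠ 0 := by
        intro h7
        apply h3
        have e1 : (k z).re = 0 := by nlinarith [sq_nonneg (k z).re, sq_nonneg (k z).im]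
        have e2 : (k z).im = 0 := by nlinarith [sq_nonneg (k z).re, sq_nonneg (k z).im]
        exact Complex.ext e1 e2
      have h7 : U z 0 = 0 := by
        have h8 := (mul_eq_zero.1 h5).resolve_left h6
        have h9 : (1 + U z 0 ^ 2) ≠ 0 := by positivity
        have h10 := (div_eq_zero_iff.1 h8).resolve_right h9
        exact pow_eq_zero_iff (by norm_num) |>.1 h10
      apply F3_ext
      · exact h7
      · rw [h4.1, h7]; simp
      · rw [h4.2, h7]; simp
    · filter_upwards [heq] with z hz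
      rw [hz, Pi.zero_apply]
      positivity
    · exact hint.neg
  · -- the equation
    intro φ hφ hφc hφs
    have hφ2 : ContDiff ℝ 2 φ := hφ.of_le (WithTop.coe_le_coe.2 (le_top (a := (2 : ℕ∞))))
    have h1 := weak_complex hΩ hk hd hd' hfin hU hker hρ hφ2 hφc hφs
    have hφ1 : Continuous (fderiv ℝ φ) := hφ2.continuous_fderiv (by norm_num)
    have cdb : Continuous (dbar φ) := by
      unfold dbar
      exact ((hφ1.clm_apply continuous_const).add (continuous_const.mul
        (hφ1.clm_apply continuous_const))).div_const _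
    have sdb : HasCompactSupport (dbar φ) := by
      refine HasCompactSupport.intro hφc fun z hz => ?_
      have : fderiv ℝ φ z = 0 :=
        image_eq_zero_of_notMem_tsupport fun h => hz (tsupport_fderiv_subset ℝ h)
      simp [dbar, this]
    have l1 : MemLp (dbar φ) 2 (volume.restrict Ω) :=
      (cdb.memLp_of_hasCompactSupport sdb).restrict Ω
    have l2 : MemLp φ 2 (volume.restrict Ω) :=
      (hφ2.continuous.memLp_of_hasCompactSupport hφc).restrict Ω
    have i1 := cmul_int hu l1
    have i2 := cmul_int hf l2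
    have e1 : ∫ z in Ω, uf s ρ k U z * (dbar φ z - s * conj (k z) * φ z)
        = (∫ z in Ω, uf s ρ k U z * dbar φ z)
          + ∫ z in Ω, (-(s : ℂ) * conj (k z)) * uf s ρ k U z * φ z := by
      rw [← integral_add i1 i2]
      congr 1
      ext z
      ring
    rw [e1] at h1
    exact eq_neg_of_add_eq_zero_left h1
  · -- orthogonality
    intro g hg hgL
    exact orth_uf hΩ hk hkC hU hρ hg hgL
  · -- the eigenvalue relation
    filter_upwards with z
    have e1 : h z = κ * k z := by
      simp only [hkdef]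
      rw [mul_inv_cancel_left₀ hκ]
    have hs' : (s : ℂ) ≠ 0 := by exact_mod_cast hs.ne'
    rw [e1, map_mul]
    field_simp

end Pool.Agent.Results.MP_f940ca_an.RealPeriods
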