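import Mathlib
import Pool.Agent.Helper9.KA.G
import Pool.Agent.Helper7.KE.F4

/-!
# MP_f940ca_an, Q1: the full answer

`Ω` is a bounded planar domain with boundary of class `C^n`, `2 ≤ n ≤ ∞` (`n = ∞`: `C^∞` boundary,
the case of the problem), and `h` is a bounded holomorphic function on `Ω` with a nonzero period.
Then `S_h f = conj h * T f` has infinitely many eigenvalues: for every
`ε > 0` it has an eigenvalue `c` with `0 < |c| < ε`.

The proof: `Ω` is mapped conformally onto a domain with analytic boundary curves, and `h dz` is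
replaced, after a gauge transformation, by the differential of a complex harmonic function
`ρ_w = Σ w_j ω_j` in the harmonic measures `ω_j`.  Then `1/μ` is an eigenvalue iff the Toeplitz
operator with symbol `exp(μ ρ_w)` on the Bergman space is not invertible.  For large real `N`, the
operator with symbol `exp(i N ρ)` has determinants with asymptotic expansions in powers of `1/N` and
`log N`, uniformly in parameters; they are not all zero by an exact positivity identity.  If there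
were no large eigenvalues, a homotopy of Fredholm families along the closure of a linear flow on a
torus would bound the inverse of an operator that nearly has a kernel.
-/

set_option autoImplicit false

open MeasureTheory Set Topology
open scoped ENNReal ComplexConjugate

namespace Pool.Agent.Results.MP_f940ca_an.SmoothDomains

/-- A bounded domain with boundary of class `C^n` (`n = ∞` is allowed and means `C^∞` boundary):
near every boundary point `p`, `Ω` is `{ρ < 0}` for a real function `ρ` of class `C^n` with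
`dρ(p) ≠ 0`. -/
structure IsBoundedDomain (n : ℕ∞) (Ω : Set ℂ) : Prop where
  isOpen : IsOpen Ω
  connected : IsConnected Ω
  bounded : Bornology.IsBounded Ω
  smooth : ∀ p ∈ frontier Ω, ∃ ρ : ℂ → ℝ, ContDiff ℝ n ρ ∧ fderiv ℝ ρ p ≠ 0 ∧
    ∀ᶠ z in 𝓝 p, (z ∈ Ω ↔ ρ z < 0)

/-- the operator `∂/∂z̄` on differentiable functions of the real plane -/
noncomputable def dzbar (φ : ℂ → ℂ) (z : ℂ) : ℂ :=
  (fderiv ℝ φ z 1 + Complex.I * fderiv ℝ φ z Complex.I) / 2

/-- `u = T f`, the canonical (Kohn) solution of `∂u/∂z̄ = f` in `L²(Ω)`: the function `u` is in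
`L²(Ω)`, it solves the equation in the sense of distributions, and it is orthogonal to all
square-integrable holomorphic functions. -/
structure IsCanonicalSolution (Ω : Set ℂ) (f u : ℂ → ℂ) : Prop where
  memLp : MemLp u 2 (volume.restrict Ω)
  weak : ∀ φ : ℂ → ℂ, ContDiff ℝ (⊤ : ℕ∞) φ → HasCompactSupport φ → tsupport φ ⊆ Ω →
    ∫ z in Ω, u z * dzbar φ z = -∫ z in Ω, f z * φ z
  orth : ∀ g : ℂ → ℂ, DifferentiableOn ℂ g Ω → MemLp g 2 (volume.restrict Ω) →
    ∫ z in Ω, u z * conj (g z) = 0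

/-- `c` is an eigenvalue of the operator `S_h f = conj h * T f` on `L²(Ω)`. -/
def IsEigenvalue (Ω : Set ℂ) (h : ℂ → ℂ) (c : ℂ) : Prop :=
  ∃ f u : ℂ → ℂ, MemLp f 2 (volume.restrict Ω) ∧ (¬ ∀ᵐ z ∂(volume.restrict Ω), f z = 0) ∧
    IsCanonicalSolution Ω f u ∧ ∀ᵐ z ∂(volume.restrict Ω), conj (h z) * u z = c * f z

/-- closed `C¹` curves in `Ω`, parametrised by `[0,1]` -/
def IsLoop (Ω : Set ℂ) (γ : ℝ → ℂ) : Prop :=
  ContDiff ℝ 1 γ ∧ γ 0 = γ 1 ∧ ∀ t ∈ Icc (0 : ℝ) 1, γ t ∈ Ω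

/-- the period of `h dz` along `γ` -/
noncomputable def period (h : ℂ → ℂ) (γ : ℝ → ℂ) : ℂ := ∫ t in (0 : ℝ)..1, h (γ t) * deriv γ t

open Pool.Agent.Helper7.KE

/-- from solutions of `∂u/∂z̄ = μ conj h u` to eigenvalues -/
theorem eig_of_sol {Ω : Set ℂ} (hΩ : IsOpen Ω) (hc : IsPreconnected Ω) {h : ℂ → ℂ}
    (hh : DifferentiableOn ℂ h Ω) (hb : ∃ C : ℝ, ∀ z ∈ Ω, ‖h z‖ ≤ C)
    (hne : ∃ z ∈ Ω, h z ≠ 0) {μ : ℂ} (hμ : μ ≠ 0) {u : ℂ → ℂ} (hu : IsSol Ω h μ u) :
    IsEigenvalue Ω h μ⁻¹ := by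
  obtain ⟨C, hC⟩ := hb
  have hk0 : ∀ᵐ z ∂(volume.restrict Ω), h z ≠ 0 := by
    have han : AnalyticOnNhd ℂ h Ω := hh.analyticOnNhd hΩ
    rcases han.eqOn_zero_or_eventually_ne_zero_of_preconnected hc with h0 | h0
    · exfalso
      obtain ⟨z, hz, hz0⟩ := hne
      exact hz0 (h0 hz)
    · exact ae_restrict_le_codiscreteWithin hΩ.measurableSet h0
  have hm : AEStronglyMeasurable (fun z => μ * conj (h z)) (volume.restrict Ω) :=
    (Complex.continuous_conj.comp_aestronglyMeasurable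
      (hh.continuousOn.aestronglyMeasurable hΩ.measurableSet)).const_mul _
  refine ⟨fun z => μ * conj (h z) * u z, u, ?_, ?_, ⟨hu.memLp, ?_, hu.orth⟩, ?_⟩
  · refine MemLp.of_le_mul (c := ‖μ‖ * C) hu.memLp (hm.mul hu.memLp.1) ?_
    filter_upwards [ae_restrict_mem hΩ.measurableSet] with z hz
    rw [norm_mul, norm_mul, RCLike.norm_conj]
    exact mul_le_mul_of_nonneg_right (mul_le_mul_of_nonneg_left (hC z hz) (norm_nonneg _))
      (norm_nonneg _)
  · intro h0
    apply hu.ne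
    filter_upwards [h0, hk0] with z hz hz0
    rcases mul_eq_zero.1 hz with h1 | h1
    · rcases mul_eq_zero.1 h1 with h2 | h2
      · exact absurd h2 hμ
      · exact absurd ((map_eq_zero _).1 h2) hz0
    · exact h1
  · intro φ h1 h2 h3
    have e1 := hu.weak φ ⟨h1, h2, h3⟩
    have e2 : dzbar φ = dzb φ := by
      funext z
      simp only [dzbar, dzb, smul_eq_mul]
      ring
    rw [e2]
    exact e1
  · filter_upwards with z
    field_simp

theorem result (n : ℕ∞) (hn : 2 ≤ n) (Ω : Set ℂ) (hΩ : IsBoundedDomain n Ω) (h : ℂ → ℂ)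
    (hh : DifferentiableOn ℂ h Ω) (hb : ∃ C : ℝ, ∀ z ∈ Ω, ‖h z‖ ≤ C)
    (hper : ∃ γ, IsLoop Ω γ ∧ period h γ ≠ 0) (ε : ℝ) (hε : 0 < ε) :
    ∃ c : ℂ, 0 < ‖c‖ ∧ ‖c‖ < ε ∧ IsEigenvalue Ω h c := by
  have hΩ' : Pool.Agent.EN.C2Domain Ω :=
    ⟨hΩ.isOpen, hΩ.connected, hΩ.bounded, fun p hp => by
      obtain ⟨ρ, h1, h2, h3⟩ := hΩ.smooth p hp
      exact ⟨ρ, (h1.of_le (show ((2 : ℕ∞) : WithTop ℕ∞) ≤ n from
        WithTop.coe_le_coe.2 hn)).contDiffAt, h2, h3⟩⟩
  obtain ⟨γ, hγ, hγne⟩ := hper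
  have hΩc := hΩ.connected.isPreconnected
  have hd1 : ∀ z ∈ Ω, deriv (fun z : ℂ => z) z = 1 := fun z _ => by simp
  have hnp : ¬ ∃ F : ℂ → ℂ, ∀ z ∈ Ω, HasDerivAt F (h z) z := by
    rintro ⟨F, hF⟩
    refine no_primitive (U := Ω) (Ω := Ω) hΩ.isOpen (ψ := fun z => z) differentiableOn_id
      (injOn_id Ω) (image_id Ω) hh hγ.1 hγ.2.1 hγ.2.2 hγne ⟨F, fun z hz => ?_⟩
    rw [hd1 z hz, mul_one]
    exact hF z hz
  obtain ⟨μ, hμ, u, hu⟩ := Pool.Agent.KA.domain_main hΩ' hh hb hnp ε⁻¹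
  have hεi : 0 < ε⁻¹ := inv_pos.2 hε
  have hμ0 : μ ≠ 0 := norm_pos_iff.1 (hεi.trans hμ)
  refine ⟨μ⁻¹, norm_pos_iff.2 (inv_ne_zero hμ0), ?_, ?_⟩
  · rw [norm_inv]
    exact inv_lt_of_inv_lt₀ hε hμ
  · refine eig_of_sol hΩ.isOpen hΩc hh hb ?_ hμ0 hu
    by_contra hcon
    push Not at hcon
    apply hγne
    unfold period
    have : ∫ t in (0 : ℝ)..1, h (γ t) * deriv γ t = ∫ t in (0 : ℝ)..1, (0 : ℂ) := by
      apply intervalIntegral.integral_congr
      intro t ht
      rw [uIcc_of_le zero_le_one] at ht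
      simp only [hcon _ (hγ.2.2 t ht), zero_mul]
    rw [this]; simp

end Pool.Agent.Results.MP_f940ca_an.SmoothDomains
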